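import Mathlib

namespace Pool.Agent.Results.MP_598d99_co.Classification

open Finset

universe u

/-- The colour scheme of `T`: for each colour `i`, the number of `s`-subsets of `T` of colour `i`. -/
noncomputable def scheme {X : Type u} {s m : ℕ} (c : {S : Finset X // S.card = s} → Fin m)
    (T : Finset X) (i : Fin m) : ℕ :=
  {S : {S : Finset X // S.card = s} | S.1 ⊆ T ∧ c S = i}.ncard

/-- The number `n(t)` of distinct colour schemes of `t`-subsets. -/
noncomputable def numSchemes {X : Type u} {s m : ℕ} (c : {S : Finset X // S.card = s} → Fin m)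
    (t : ℕ) : ℕ :=
  {a : Fin m → ℕ | ∃ T : Finset X, T.card = t ∧ scheme c T = a}.ncard

section Positive

variable {X : Type u} [Fintype X] [DecidableEq X]

theorem double_count (t : ℕ) (G : Finset X → X → ℚ) :
    ∑ T ∈ powersetCard (t + 1) (univ : Finset X), ∑ v ∈ T, G (T.erase v) v =
      ∑ S ∈ powersetCard t (univ : Finset X), ∑ v ∈ Sᶜ, G S v := by
  rw [sum_sigma', sum_sigma']
  refine sum_bij' (fun p _ => ⟨p.1.erase p.2, p.2⟩) (fun p _ => ⟨insert p.2 p.1, p.2⟩) ?_ ?_ ?_ ?_ ?_
  · rintro ⟨T, v⟩ h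
    simp only [mem_sigma, mem_powersetCard, subset_univ, true_and] at h ⊢
    exact ⟨by rw [card_erase_of_mem h.2, h.1]; rfl, by simp⟩
  · rintro ⟨S, v⟩ h
    simp only [mem_sigma, mem_powersetCard, subset_univ, true_and, mem_compl] at h ⊢
    exact ⟨by rw [card_insert_of_notMem h.2, h.1], by simp⟩
  · rintro ⟨T, v⟩ h
    simp only [mem_sigma] at h
    simp [insert_erase h.2]
  · rintro ⟨S, v⟩ h
    simp only [mem_sigma, mem_compl] at h
    simp [erase_insert h.2]
  · rintro ⟨T, v⟩ _
    rfl

/-- The inclusion map from functions on `t`-sets to functions on `(t+1)`-sets is injective. -/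
theorem up_inj (t : ℕ) (ht : 2 * t < Fintype.card X) (f : Finset X → ℚ)
    (hf : ∀ T : Finset X, T.card = t + 1 → ∑ v ∈ T, f (T.erase v) = 0) (S0 : Finset X)
    (h0 : S0.card = t) : f S0 = 0 := by
  set g : ℕ → ℚ := fun j => ∑ S ∈ powersetCard t (univ : Finset X),
    if (S ∩ S0).card = j then f S else 0 with hg
  have key : ∀ j : ℕ, ((Fintype.card X : ℚ) - 2 * t + j) * g j +
      (if j = 0 then 0 else ((t : ℚ) - j + 1) * g (j - 1)) = 0 := by
    intro j
    have h1 := double_count t (fun S v => if (insert v S ∩ S0).card = j then f S else 0)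
    have h2 : ∑ T ∈ powersetCard (t + 1) (univ : Finset X), ∑ v ∈ T,
        (if (insert v (T.erase v) ∩ S0).card = j then f (T.erase v) else 0) = 0 := by
      refine sum_eq_zero fun T hT => ?_
      rw [sum_congr rfl fun v hv => by rw [insert_erase hv]]
      split_ifs
      · exact hf T (mem_powersetCard.1 hT).2
      · simp
    rw [h2] at h1
    refine Eq.trans ?_ h1.symm
    simp only [hg]
    rw [mul_sum]
    have h3 : (if j = 0 then (0 : ℚ) else ((t : ℚ) - j + 1) * ∑ S ∈ powersetCard t (univ : Finset X),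
        if (S ∩ S0).card = j - 1 then f S else 0) = ∑ S ∈ powersetCard t (univ : Finset X),
        if (S ∩ S0).card + 1 = j then ((t : ℚ) - j + 1) * f S else 0 := by
      split_ifs with hj
      · simp [hj]
      · rw [mul_sum]
        refine sum_congr rfl fun S _ => ?_
        have : (S ∩ S0).card = j - 1 ↔ (S ∩ S0).card + 1 = j := by omega
        simp only [this, mul_ite, mul_zero]
    rw [h3, ← sum_add_distrib]
    refine sum_congr rfl fun S hS => ?_
    have hS' := (mem_powersetCard.1 hS).2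
    rw [← sum_filter_add_sum_filter_not Sᶜ (fun v => v ∈ S0), add_comm, eq_comm]
    have e1 : ∑ v ∈ Sᶜ with v ∈ S0, (if (insert v S ∩ S0).card = j then f S else 0) =
        ((S0 \ S).card : ℚ) * (if (S ∩ S0).card + 1 = j then f S else 0) := by
      rw [sum_congr (s₂ := S0 \ S) (g := fun _ => if (S ∩ S0).card + 1 = j then f S else 0)
        (by ext v; simp [and_comm]) ?_, sum_const, nsmul_eq_mul]
      intro v hv
      rw [mem_sdiff] at hv
      rw [insert_inter_of_mem hv.1, card_insert_of_notMem (by simp [hv.2])]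
    have e2 : ∑ v ∈ Sᶜ with v ∉ S0, (if (insert v S ∩ S0).card = j then f S else 0) =
        (((S ∪ S0)ᶜ).card : ℚ) * (if (S ∩ S0).card = j then f S else 0) := by
      rw [sum_congr (s₂ := (S ∪ S0)ᶜ) (g := fun _ => if (S ∩ S0).card = j then f S else 0)
        (by ext v; simp) ?_, sum_const, nsmul_eq_mul]
      intro v hv
      rw [mem_compl, mem_union, not_or] at hv
      rw [insert_inter_of_notMem hv.2]
    rw [e1, e2]
    have c1 : (S0 \ S).card + (S ∩ S0).card = t := by
      rw [inter_comm, card_sdiff_add_card_inter, h0]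
    have c2 : ((S ∪ S0)ᶜ).card + (S ∪ S0).card = Fintype.card X := card_compl_add_card _
    have c3 := card_union_add_card_inter S S0
    have c1' : ((S0 \ S).card : ℚ) = t - (S ∩ S0).card := by rw [← c1]; push_cast; ring
    have c2' : (((S ∪ S0)ᶜ).card : ℚ) = Fintype.card X - 2 * t + (S ∩ S0).card := by
      have : ((S ∪ S0)ᶜ).card + 2 * t = Fintype.card X + (S ∩ S0).card := by omega
      have := congrArg (Nat.cast : ℕ → ℚ) this
      push_cast at this
      linarith
    rw [c1', c2']
    congr 1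
    · split_ifs with h
      · rw [← h]; push_cast; ring
      · simp
    · split_ifs with h
      · rw [h]
      · simp
  have hpos : (0 : ℚ) < (Fintype.card X : ℚ) - 2 * t := by
    have : ((2 * t : ℕ) : ℚ) < Fintype.card X := by exact_mod_cast ht
    push_cast at this
    linarith
  have hz : ∀ j, g j = 0 := by
    intro j
    induction j with
    | zero =>
      have := key 0
      simp only [if_true, add_zero, Nat.cast_zero] at this
      exact (mul_eq_zero.1 this).resolve_left hpos.ne'
    | succ j ih =>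
      have := key (j + 1)
      rw [if_neg (Nat.succ_ne_zero j), Nat.add_sub_cancel, ih, mul_zero, add_zero] at this
      exact (mul_eq_zero.1 this).resolve_left (by positivity)
  have := hz t
  rw [hg] at this
  simp only at this
  rw [sum_eq_single S0] at this
  · simpa [h0] using this
  · intro S hS hne
    rw [if_neg]
    intro h
    have hS' := (mem_powersetCard.1 hS).2
    have h1 : S ∩ S0 = S := eq_of_subset_of_card_le inter_subset_left (by omega)
    have h2 : S ∩ S0 = S0 := eq_of_subset_of_card_le inter_subset_right (by omega)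
    exact hne (h1.symm.trans h2)
  · intro h
    exact absurd (mem_powersetCard.2 ⟨subset_univ _, h0⟩) h

/-- Counting classes through the injective inclusion map. -/
theorem classes_le {A : Type} (t : ℕ) (ht : 2 * t < Fintype.card X) (κ : Finset X → A)
    (hκ : ∀ (h : A → ℚ) (T T' : Finset X), T.card = t + 1 → T'.card = t + 1 → κ T = κ T' →
      ∑ v ∈ T, h (κ (T.erase v)) = ∑ v ∈ T', h (κ (T'.erase v))) :
    {a | ∃ T : Finset X, T.card = t ∧ κ T = a}.ncard ≤
      {a | ∃ T : Finset X, T.card = t + 1 ∧ κ T = a}.ncard := by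
  classical
  have fin : ∀ n, {a | ∃ T : Finset X, T.card = n ∧ κ T = a}.Finite := fun n =>
    (Set.finite_range κ).subset (by rintro a ⟨T, -, rfl⟩; exact ⟨T, rfl⟩)
  set P := {a | ∃ T : Finset X, T.card = t ∧ κ T = a} with hP
  set Q := {a | ∃ T : Finset X, T.card = t + 1 ∧ κ T = a} with hQ
  have : Fintype P := (fin t).fintype
  have : Fintype Q := (fin (t + 1)).fintype
  let ext : (P → ℚ) →ₗ[ℚ] (A → ℚ) :=
    { toFun := fun h a => if ha : a ∈ P then h ⟨a, ha⟩ else 0
      map_add' := fun h k => by funext a; by_cases ha : a ∈ P <;> simp [ha]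
      map_smul' := fun r h => by funext a; by_cases ha : a ∈ P <;> simp [ha] }
  let L : (P → ℚ) →ₗ[ℚ] (Q → ℚ) :=
    { toFun := fun h b => ∑ v ∈ b.2.choose, ext h (κ (b.2.choose.erase v))
      map_add' := fun h k => by funext b; simp [sum_add_distrib]
      map_smul' := fun r h => by funext b; simp [mul_sum] }
  have hL : Function.Injective L := by
    rw [injective_iff_map_eq_zero]
    intro h hh
    funext ⟨a, S, hS, ha⟩
    have := up_inj t ht (fun S => ext h (κ S)) (fun T hT => by
      have hb : κ T ∈ Q := ⟨T, hT, rfl⟩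
      rw [hκ (ext h) T hb.choose hT hb.choose_spec.1 hb.choose_spec.2.symm]
      exact congrFun hh ⟨κ T, hb⟩) S hS
    have hm : κ S ∈ P := ⟨S, hS, rfl⟩
    subst ha
    simpa [ext, hm] using this
  have := LinearMap.finrank_le_finrank_of_injective hL
  rwa [Module.finrank_fintype_fun_eq_card, Module.finrank_fintype_fun_eq_card,
    ← Nat.card_eq_fintype_card, ← Nat.card_eq_fintype_card, Nat.card_coe_set_eq,
    Nat.card_coe_set_eq] at this

theorem scheme_eq {s m : ℕ} (c : {S : Finset X // S.card = s} → Fin m) (T : Finset X) (i : Fin m) :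
    scheme c T i = (univ.filter fun S : {S : Finset X // S.card = s} => S.1 ⊆ T ∧ c S = i).card := by
  rw [scheme, ← Set.ncard_coe_finset]
  congr 1
  ext S
  simp

theorem fib {s m : ℕ} (c : {S : Finset X // S.card = s} → Fin m) (T : Finset X) (H : Fin m → ℚ) :
    ∑ S ∈ univ.filter (fun S : {S : Finset X // S.card = s} => S.1 ⊆ T), H (c S) =
      ∑ i, (scheme c T i : ℚ) * H i := by
  rw [← sum_fiberwise _ c]
  refine sum_congr rfl fun i _ => ?_
  rw [sum_congr rfl (g := fun _ => H i) fun S hS => by rw [(mem_filter.1 hS).2], sum_const,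
    nsmul_eq_mul, filter_filter, scheme_eq]

theorem mono_zero {m : ℕ} (c : {S : Finset X // S.card = 0} → Fin m) (t : ℕ)
    (ht : 2 * t < Fintype.card X) : numSchemes c t ≤ numSchemes c (t + 1) := by
  have h0 : ∀ T, scheme c T = scheme c ∅ := fun T => by
    funext i
    rw [scheme_eq, scheme_eq]
    congr 1
    ext ⟨S, hS⟩
    obtain rfl := card_eq_zero.1 hS
    simp
  refine classes_le t ht (scheme c) fun h T T' hT hT' _ => ?_
  simp only [h0 (T.erase _), h0 (T'.erase _), sum_const, hT, hT']

theorem mono_diag {s m : ℕ} (c : {S : Finset X // S.card = s} → Fin m)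
    (ht : 2 * s < Fintype.card X) : numSchemes c s ≤ numSchemes c (s + 1) := by
  have h0 : ∀ S : {S : Finset X // S.card = s}, scheme c S.1 = Pi.single (c S) 1 := fun S => by
    funext i
    rw [scheme_eq]
    have : ∀ S' : {S : Finset X // S.card = s}, S'.1 ⊆ S.1 ↔ S' = S := fun S' =>
      ⟨fun h => Subtype.ext (eq_of_subset_of_card_le h (by rw [S.2, S'.2])), fun h => h ▸ Subset.rfl⟩
    simp only [this]
    by_cases hi : i = c S
    · subst hi
      rw [Pi.single_eq_same, card_eq_one]
      exact ⟨S, by ext S'; simp +contextual⟩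
    · rw [Pi.single_eq_of_ne hi, card_eq_zero, filter_eq_empty_iff]
      rintro S' - ⟨rfl, h⟩
      exact hi h.symm
  have h1 : ∀ (h : (Fin m → ℕ) → ℚ) (T : Finset X), T.card = s + 1 →
      ∑ v ∈ T, h (scheme c (T.erase v)) = ∑ i, (scheme c T i : ℚ) * h (Pi.single i 1) := by
    intro h T hT
    rw [← fib c T fun i => h (Pi.single i 1)]
    refine sum_bij (fun v hv => ⟨T.erase v, by rw [card_erase_of_mem hv, hT]; rfl⟩) ?_ ?_ ?_ ?_
    · intro v hv
      simp [erase_subset]
    · intro v hv w hw h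
      exact (erase_inj T hv).1 (congrArg Subtype.val h)
    · intro S hS
      have hS' := (mem_filter.1 hS).2
      obtain ⟨v, hv, hvS⟩ := exists_mem_notMem_of_card_lt_card (s := S.1) (t := T) (by rw [S.2]; omega)
      refine ⟨v, hv, Subtype.ext (eq_of_subset_of_card_le (subset_erase.2 ⟨hS', hvS⟩) ?_).symm⟩
      rw [card_erase_of_mem hv, hT, S.2]; rfl
    · intro v hv
      rw [← h0]
  refine classes_le s ht (scheme c) fun h T T' hT hT' e => ?_
  rw [h1 h T hT, h1 h T' hT', e]

theorem mono_one {m : ℕ} (c : {S : Finset X // S.card = 1} → Fin m) (t : ℕ)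
    (ht : 2 * t < Fintype.card X) : numSchemes c t ≤ numSchemes c (t + 1) := by
  have h0 : ∀ (T : Finset X) (v : X), v ∈ T →
      scheme c (T.erase v) = scheme c T - Pi.single (c ⟨{v}, rfl⟩) 1 := fun T v hv => by
    funext i
    rw [Pi.sub_apply, scheme_eq, scheme_eq]
    have e : (univ.filter fun S : {S : Finset X // S.card = 1} => S.1 ⊆ T.erase v ∧ c S = i) =
        (univ.filter fun S : {S : Finset X // S.card = 1} => S.1 ⊆ T ∧ c S = i).erase ⟨{v}, rfl⟩ := by
      ext ⟨S, hS⟩
      obtain ⟨w, rfl⟩ := card_eq_one.1 hS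
      simp [and_assoc]
    rw [e]
    by_cases hi : i = c ⟨{v}, rfl⟩
    · subst hi
      rw [Pi.single_eq_same, card_erase_of_mem (by simp [hv])]
    · rw [Pi.single_eq_of_ne hi, erase_eq_of_notMem (by simp [Ne.symm hi]), Nat.sub_zero]
  have h1 : ∀ (h : (Fin m → ℕ) → ℚ) (T : Finset X), ∑ v ∈ T, h (scheme c (T.erase v)) =
      ∑ i, (scheme c T i : ℚ) * h (scheme c T - Pi.single i 1) := by
    intro h T
    refine Eq.trans ?_ (fib c T fun i => h (scheme c T - Pi.single i 1))
    refine sum_bij (fun v _ => ⟨{v}, rfl⟩) ?_ ?_ ?_ ?_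
    · intro v hv
      simp [hv]
    · intro v hv w hw h
      simpa using h
    · rintro ⟨S, hS⟩ h
      obtain ⟨w, rfl⟩ := card_eq_one.1 hS
      exact ⟨w, by simpa using h, rfl⟩
    · intro v hv
      rw [h0 T v hv]
  refine classes_le t ht (scheme c) fun h T T' _ _ e => ?_
  rw [h1 h T, h1 h T', e]

end Positive

section Negative

variable {X : Type u} [Fintype X] [DecidableEq X]

theorem ncard_lt {K A B : Type*} [Finite K] (D : Set K) (f : K → A) (g : K → B)
    (h : ∀ k ∈ D, ∀ l ∈ D, f k = f l → g k = g l)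
    (h' : ∃ k ∈ D, ∃ l ∈ D, f k ≠ f l ∧ g k = g l) : (g '' D).ncard < (f '' D).ncard := by
  classical
  obtain ⟨k, hk, l, hl, hne, he⟩ := h'
  let ψ : A → B := fun a => if ha : a ∈ f '' D then g ha.choose else g k
  have hψ : ∀ j ∈ D, ψ (f j) = g j := fun j hj => by
    have ha : f j ∈ f '' D := ⟨j, hj, rfl⟩
    simp only [ψ, dif_pos ha]
    exact h _ ha.choose_spec.1 _ hj ha.choose_spec.2
  have hfin : (f '' D).Finite := (Set.toFinite D).image f
  have e : g '' D = ψ '' (f '' D) := by
    rw [Set.image_image]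
    exact Set.image_congr fun j hj => (hψ j hj).symm
  rw [e]
  refine lt_of_le_of_ne (Set.ncard_image_le hfin) fun hc => hne ?_
  exact Set.injOn_of_ncard_image_eq hc hfin ⟨k, hk, rfl⟩ ⟨l, hl, rfl⟩ (by rw [hψ k hk, hψ l hl, he])

theorem total {s m : ℕ} (c : {S : Finset X // S.card = s} → Fin m) (T : Finset X) :
    ∑ i, scheme c T i = T.card.choose s := by
  have h := fib c T fun _ => 1
  simp only [sum_const, nsmul_eq_mul, mul_one] at h
  have e : (univ.filter fun S : {S : Finset X // S.card = s} => S.1 ⊆ T).card = T.card.choose s := by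
    rw [← card_powersetCard]
    refine card_bij (fun S _ => S.1) ?_ ?_ ?_
    · intro S hS
      exact mem_powersetCard.2 ⟨(mem_filter.1 hS).2, S.2⟩
    · intro S _ S' _ h
      exact Subtype.ext h
    · intro S hS
      exact ⟨⟨S, (mem_powersetCard.1 hS).2⟩, by simpa using (mem_powersetCard.1 hS).1, rfl⟩
  rw [e] at h
  exact_mod_cast h.symm

theorem realize (W P : Finset X) (hP : P ⊆ W) (L : ℕ) (hW : P.card ≤ L)
    (hX : W.card + L ≤ Fintype.card X) : ∃ T : Finset X, T.card = L ∧ T ∩ W = P := by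
  obtain ⟨G, hG, hc⟩ := exists_subset_card_eq (s := Wᶜ) (n := L - P.card)
    (by rw [card_compl]; omega)
  have hd : Disjoint G W := disjoint_left.2 fun v hv => mem_compl.1 (hG hv)
  refine ⟨P ∪ G, by rw [card_union_of_disjoint (hd.mono_right hP).symm]; omega, ?_⟩
  rw [union_inter_distrib_right, inter_eq_left.2 hP, disjoint_iff_inter_eq_empty.1 hd, union_empty]

theorem num_eq {s : ℕ} (c : {S : Finset X // S.card = s} → Fin 3) (W : Finset X) (L : ℕ)
    (hW : W.card ≤ L) (hX : W.card + L ≤ Fintype.card X) (Φ : ℕ → Finset X → ℕ × ℕ)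
    (hΦ : ∀ T, (scheme c T 1, scheme c T 2) = Φ T.card (T ∩ W)) :
    numSchemes c L = (Φ L '' {P | P ⊆ W}).ncard := by
  rw [numSchemes, ← Set.InjOn.ncard_image (f := fun a : Fin 3 → ℕ => (a 1, a 2))]
  · congr 1
    ext b
    constructor
    · rintro ⟨_, ⟨T, hT, rfl⟩, rfl⟩
      exact ⟨T ∩ W, inter_subset_right, by rw [← hT, ← hΦ]⟩
    · rintro ⟨P, hP, rfl⟩
      obtain ⟨T, hT, e⟩ := realize W P hP L ((card_le_card hP).trans hW) hX
      exact ⟨_, ⟨T, hT, rfl⟩, (hΦ T).trans (by rw [hT, e])⟩
  · rintro _ ⟨T, hT, rfl⟩ _ ⟨T', hT', rfl⟩ h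
    have h1 := total c T
    have h2 := total c T'
    rw [Fin.sum_univ_three, hT] at h1
    rw [Fin.sum_univ_three, hT'] at h2
    simp only [Prod.mk.injEq] at h
    funext i
    fin_cases i
    · show scheme c T 0 = scheme c T' 0
      omega
    · exact h.1
    · exact h.2

/-- A colouring of the `s`-sets from an oriented colouring `δ` of pairs and `s - 2` apex points. -/
theorem exists_col (s : ℕ) (Z : Finset X) (hZ : Z.card + 2 = s) (δ : X → X → Fin 3)
    (hδ : ∀ p q, δ p q ≠ 0 → p ∉ Z ∧ q ∉ Z ∧ δ q p = 0) :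
    ∃ c : {S : Finset X // S.card = s} → Fin 3, ∀ (T : Finset X) (i : Fin 3), i ≠ 0 →
      scheme c T i = if Z ⊆ T then ∑ p ∈ T, (T.filter fun q => δ p q = i).card else 0 := by
  classical
  have hne : ∀ p q, δ p q ≠ 0 → p ≠ q := fun p q h e => h (by subst e; exact (hδ p p h).2.2)
  have uniq : ∀ p q p' q', δ p q ≠ 0 → δ p' q' ≠ 0 →
      insert p (insert q Z) = insert p' (insert q' Z) → p = p' ∧ q = q' := by
    intro p q p' q' h h' e
    have h1 : p ∈ insert p' (insert q' Z) := e ▸ mem_insert_self _ _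
    have h2 : q ∈ insert p' (insert q' Z) := e ▸ mem_insert_of_mem (mem_insert_self _ _)
    simp only [mem_insert, (hδ p q h).1, (hδ p q h).2.1, or_false] at h1 h2
    have := hne p q h
    rcases h1 with rfl | rfl <;> rcases h2 with rfl | rfl
    · exact absurd rfl this
    · exact ⟨rfl, rfl⟩
    · exact absurd (hδ _ _ h).2.2 h'
    · exact absurd rfl this
  let c : {S : Finset X // S.card = s} → Fin 3 := fun S =>
    if h : ∃ pq : X × X, δ pq.1 pq.2 ≠ 0 ∧ S.1 = insert pq.1 (insert pq.2 Z) then
      δ h.choose.1 h.choose.2 else 0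
  have hc : ∀ S i, i ≠ 0 → (c S = i ↔ ∃ p q, δ p q = i ∧ S.1 = insert p (insert q Z)) := by
    intro S i hi
    constructor
    · intro h
      by_cases h' : ∃ pq : X × X, δ pq.1 pq.2 ≠ 0 ∧ S.1 = insert pq.1 (insert pq.2 Z)
      · simp only [c, dif_pos h'] at h
        exact ⟨_, _, h, h'.choose_spec.2⟩
      · simp only [c, dif_neg h'] at h
        exact absurd h.symm hi
    · rintro ⟨p, q, rfl, h⟩
      have h' : ∃ pq : X × X, δ pq.1 pq.2 ≠ 0 ∧ S.1 = insert pq.1 (insert pq.2 Z) := ⟨(p, q), hi, h⟩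
      simp only [c, dif_pos h']
      obtain ⟨e1, e2⟩ := uniq _ _ _ _ h'.choose_spec.1 hi (h'.choose_spec.2.symm.trans h)
      rw [e1, e2]
  refine ⟨c, fun T i hi => ?_⟩
  rw [scheme_eq]
  split_ifs with hT
  · rw [← card_sigma]
    symm
    refine card_bij (fun pq hpq => ⟨insert pq.1 (insert pq.2 Z), ?_⟩) ?_ ?_ ?_
    · have h : δ pq.1 pq.2 ≠ 0 := (mem_filter.1 (mem_sigma.1 hpq).2).2 ▸ hi
      rw [card_insert_of_notMem (by simp [hne _ _ h, (hδ _ _ h).1]),
        card_insert_of_notMem (hδ _ _ h).2.1, hZ]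
    · rintro ⟨p, q⟩ hpq
      simp only [mem_sigma, mem_filter] at hpq
      simp only [mem_filter, mem_univ, true_and]
      exact ⟨insert_subset hpq.1 (insert_subset hpq.2.1 hT), (hc _ i hi).2 ⟨p, q, hpq.2.2, rfl⟩⟩
    · rintro ⟨p, q⟩ hpq ⟨p', q'⟩ hpq' e
      simp only [mem_sigma, mem_filter] at hpq hpq'
      obtain ⟨rfl, rfl⟩ := uniq p q p' q' (hpq.2.2 ▸ hi) (hpq'.2.2 ▸ hi) (congrArg Subtype.val e)
      rfl
    · intro S hS
      simp only [mem_filter, mem_univ, true_and] at hS
      obtain ⟨p, q, h1, h2⟩ := (hc S i hi).1 hS.2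
      have h3 := hS.1
      rw [h2, insert_subset_iff, insert_subset_iff] at h3
      exact ⟨⟨p, q⟩, by simp [h3.1, h3.2.1, h1], Subtype.ext h2.symm⟩
  · rw [card_eq_zero, filter_eq_empty_iff]
    rintro S - ⟨h1, h2⟩
    obtain ⟨p, q, -, h3⟩ := (hc S i hi).1 h2
    exact hT (((subset_insert _ _).trans (subset_insert _ _)).trans (h3 ▸ h1))

theorem conclude {s : ℕ} (c : {S : Finset X // S.card = s} → Fin 3) (W : Finset X) (t : ℕ)
    (hst : s ≤ t) (hW : W.card ≤ t) (hX : 2 * (t + 1) ≤ Fintype.card X) (Φ : ℕ → Finset X → ℕ × ℕ)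
    (hΦ : ∀ T, (scheme c T 1, scheme c T 2) = Φ T.card (T ∩ W)) (h0 : Φ s ∅ = (0, 0))
    (h1 : ∃ P ⊆ W, (Φ t P).1 ≠ 0 ∧ (Φ t P).2 ≠ 0)
    (h : ∀ P ⊆ W, ∀ Q ⊆ W, Φ t P = Φ t Q → Φ (t + 1) P = Φ (t + 1) Q)
    (h' : ∃ P ⊆ W, ∃ Q ⊆ W, Φ t P ≠ Φ t Q ∧ Φ (t + 1) P = Φ (t + 1) Q) :
    Function.Surjective c ∧ numSchemes c (t + 1) < numSchemes c t := by
  refine ⟨fun i => ?_, ?_⟩
  · have key : ∀ T, scheme c T i ≠ 0 → ∃ S, c S = i := fun T hT => by
      rw [scheme_eq] at hT
      obtain ⟨S, hS⟩ := card_ne_zero.1 hT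
      exact ⟨S, (mem_filter.1 hS).2.2⟩
    obtain ⟨P, hP, h1⟩ := h1
    obtain ⟨T, hT, e⟩ := realize W P hP t ((card_le_card hP).trans hW) (by omega)
    obtain ⟨S, hS, e'⟩ := realize W ∅ (empty_subset _) s (by simp) (by omega)
    have a1 := hΦ T
    have a2 := hΦ S
    have a3 := total c S
    rw [hT, e] at a1
    rw [hS, e', h0, Prod.mk.injEq] at a2
    rw [Fin.sum_univ_three, hS, Nat.choose_self] at a3
    rw [← a1] at h1
    fin_cases i
    · exact key S (by show scheme c S 0 ≠ 0; omega)
    · exact key T h1.1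
    · exact key T h1.2
  · rw [num_eq c W t hW (by omega) Φ hΦ, num_eq c W (t + 1) (by omega) (by omega) Φ hΦ]
    exact ncard_lt _ _ _ h h'

theorem stars (a x y : X) (hax : a ≠ x) (hay : a ≠ y) (hxy : x ≠ y) (A B C : X → Fin 3)
    (T : Finset X) (i : Fin 3) (hi : i ≠ 0) :
    ∑ p ∈ T, (T.filter fun q =>
        (if p = a then A q else if p = x then B q else if p = y then C q else 0) = i).card =
      (if a ∈ T then (T.filter fun q => A q = i).card else 0) +
      (if x ∈ T then (T.filter fun q => B q = i).card else 0) +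
      (if y ∈ T then (T.filter fun q => C q = i).card else 0) := by
  rw [← sum_ite_eq' T a fun _ => (T.filter fun q => A q = i).card,
    ← sum_ite_eq' T x fun _ => (T.filter fun q => B q = i).card,
    ← sum_ite_eq' T y fun _ => (T.filter fun q => C q = i).card, ← sum_add_distrib,
    ← sum_add_distrib]
  refine sum_congr rfl fun p _ => ?_
  by_cases h1 : p = a
  · subst h1; simp [hax, hay]
  by_cases h2 : p = x
  · subst h2; simp [h1, hxy]
  by_cases h3 : p = y
  · subst h3; simp [h1, h2]
  simp [h1, h2, h3, hi.symm]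

theorem card_inter_insert (P B : Finset X) (v : X) (hv : v ∉ B) :
    (P ∩ insert v B).card = (P ∩ B).card + if v ∈ P then 1 else 0 := by
  split_ifs with h
  · rw [inter_insert_of_mem h, card_insert_of_notMem (by simp [hv])]
  · rw [inter_insert_of_notMem h, add_zero]

/-- The case `t = s + 1`. -/
theorem small (s : ℕ) (Z : Finset X) (hZ : Z.card + 2 = s) (a x y : X) (hax : a ≠ x) (hay : a ≠ y)
    (hxy : x ≠ y) (ha : a ∉ Z) (hx : x ∉ Z) (hy : y ∉ Z) (hX : 2 * (s + 1 + 1) ≤ Fintype.card X) :
    ∃ c : {S : Finset X // S.card = s} → Fin 3,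
      Function.Surjective c ∧ numSchemes c (s + 1 + 1) < numSchemes c (s + 1) := by
  obtain ⟨W, hW⟩ : ∃ W : Finset X, W = insert a (insert x (insert y Z)) := ⟨_, rfl⟩
  have hcard : ∀ P : Finset X, Z ⊆ P → (P ∩ W).card = Z.card + (if y ∈ P then 1 else 0) +
      (if x ∈ P then 1 else 0) + (if a ∈ P then 1 else 0) := fun P hP => by
    rw [hW, card_inter_insert _ _ _ (by simp [hax, hay, ha]),
      card_inter_insert _ _ _ (by simp [hxy, hx]), card_inter_insert _ _ _ hy, inter_eq_right.2 hP]
  have hZW : Z ⊆ W := fun v hv => by simp [hW, hv]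
  have haW : a ∈ W := by simp [hW]
  have hxW : x ∈ W := by simp [hW]
  have hyW : y ∈ W := by simp [hW]
  have hWc : W.card = Z.card + 3 := by simpa [haW, hxW, hyW] using hcard W hZW
  obtain ⟨c, hc⟩ := exists_col s Z hZ (fun p q => if p = a then (if q ∈ W then 0 else 1)
      else if p = x then (if q = y then 1 else if q ∈ W then 0 else 2)
      else if p = y then (if q ∈ W then 0 else 2) else 0) (by
    intro p q h
    have := @hZW q
    clear hW hcard hZW hWc
    grind)
  refine ⟨c, conclude c W (s + 1) (by omega) (by omega) hX (fun L P => if Z ⊆ P then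
    ((if a ∈ P then L - (P ∩ W).card else 0) + (if x ∈ P then (if y ∈ P then 1 else 0) else 0),
      (if x ∈ P then L - (P ∩ W).card else 0) + (if y ∈ P then L - (P ∩ W).card else 0))
      else (0, 0)) (fun T => ?_) (by simp) ?_ ?_ ?_⟩
  · have e0 : (T \ W).card = T.card - (T ∩ W).card := by
      have := card_sdiff_add_card_inter T W; omega
    have e1 : T.filter (fun q => (if q ∈ W then (0 : Fin 3) else 1) = 1) = T \ W := by
      ext q; by_cases h1 : q ∈ W <;> by_cases h2 : q = y <;> simp [h1, h2, hyW]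
    have e2 : T.filter (fun q => (if q ∈ W then (0 : Fin 3) else 1) = 2) = ∅ := by
      ext q; by_cases h1 : q ∈ W <;> by_cases h2 : q = y <;> simp [h1, h2, hyW]
    have e3 : T.filter (fun q => (if q = y then (1 : Fin 3) else if q ∈ W then 0 else 2) = 1) =
        T.filter (fun q => q = y) := by ext q; by_cases h1 : q ∈ W <;> by_cases h2 : q = y <;> simp [h1, h2, hyW]
    have e4 : T.filter (fun q => (if q = y then (1 : Fin 3) else if q ∈ W then 0 else 2) = 2) =
        T \ W := by ext q; by_cases h1 : q ∈ W <;> by_cases h2 : q = y <;> simp [h1, h2, hyW]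
    have e5 : T.filter (fun q => (if q ∈ W then (0 : Fin 3) else 2) = 1) = ∅ := by ext q; by_cases h1 : q ∈ W <;> by_cases h2 : q = y <;> simp [h1, h2, hyW]
    have e6 : T.filter (fun q => (if q ∈ W then (0 : Fin 3) else 2) = 2) = T \ W := by ext q; by_cases h1 : q ∈ W <;> by_cases h2 : q = y <;> simp [h1, h2, hyW]
    rw [hc T 1 (by decide), hc T 2 (by decide), stars a x y hax hay hxy _ _ _ T 1 (by decide),
      stars a x y hax hay hxy _ _ _ T 2 (by decide), e1, e2, e3, e4, e5, e6, e0, filter_eq']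
    simp only [subset_inter_iff, hZW, and_true, mem_inter, haW, hxW, hyW, inter_assoc, inter_self]
    split_ifs <;> simp
  · refine ⟨insert a (insert x Z), by rw [hW]; exact insert_subset_insert _ (insert_subset_insert _ (subset_insert _ _)), ?_⟩
    have hP : Z ⊆ insert a (insert x Z) := fun v hv => by simp [hv]
    have h1 := hcard _ hP
    have hy' : y ∉ insert a (insert x Z) := by simp [hay.symm, hxy.symm, hy]
    simp only [hy', mem_insert_self, mem_insert_of_mem, if_true, if_false] at h1
    simp only [hP, hy', mem_insert_self, mem_insert_of_mem, if_true, if_false, h1]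
    omega
  · intro P _ Q _
    have h1 := hcard P
    have h2 := hcard Q
    clear hc hcard hW
    by_cases hP : Z ⊆ P <;> by_cases hQ : Z ⊆ Q <;>
      simp only [hP, hQ, if_true, if_false, Prod.mk.injEq, forall_true_left] at h1 h2 ⊢ <;>
      grind
  · refine ⟨insert a (insert x Z), by rw [hW]; exact insert_subset_insert _ (insert_subset_insert _ (subset_insert _ _)), W, Subset.rfl, ?_⟩
    have hP : Z ⊆ insert a (insert x Z) := fun v hv => by simp [hv]
    have h1 := hcard _ hP
    have hy' : y ∉ insert a (insert x Z) := by simp [hay.symm, hxy.symm, hy]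
    simp only [hy', mem_insert_self, mem_insert_of_mem, if_true, if_false] at h1
    simp only [hP, hZW, haW, hxW, hyW, hy', mem_insert_self, mem_insert_of_mem, if_true, if_false,
      inter_self, hWc, h1, ne_eq, Prod.mk.injEq]
    omega

/-- The case `t ≥ s + 2`. -/
theorem large (s t r f : ℕ) (Z R F : Finset X) (hZ : Z.card + 2 = s) (hR : R.card = r) (a x y : X)
    (hax : a ≠ x) (hay : a ≠ y) (hxy : x ≠ y) (ha : a ∉ Z ∪ R) (hx : x ∉ Z ∪ R) (hy : y ∉ Z ∪ R)
    (hZR : Disjoint Z R) (hF : F = ∅ ∧ f = 0 ∨ F = {y} ∧ f = 1) (hrf : 2 ≤ r + f)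
    (ht : t + 1 = s + 2 * r + f) (hX : 2 * (t + 1) ≤ Fintype.card X) :
    ∃ c : {S : Finset X // S.card = s} → Fin 3,
      Function.Surjective c ∧ numSchemes c (t + 1) < numSchemes c t := by
  have hd := disjoint_left.1 hZR
  simp only [mem_union, not_or] at ha hx hy
  obtain ⟨W, hW⟩ : ∃ W : Finset X, W = insert a (insert x (insert y (Z ∪ R))) := ⟨_, rfl⟩
  obtain ⟨B, hB⟩ : ∃ B : Finset X, B = insert a (insert x (Z ∪ F)) := ⟨_, rfl⟩
  have hcard : ∀ P : Finset X, Z ⊆ P → (P ∩ B).card = Z.card + (if y ∈ P then f else 0) +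
      (if x ∈ P then 1 else 0) + (if a ∈ P then 1 else 0) := fun P hP => by
    rw [hB, card_inter_insert _ _ _ (by grind), card_inter_insert _ _ _ (by grind)]
    rcases hF with ⟨rfl, rfl⟩ | ⟨rfl, rfl⟩
    · simp [inter_eq_right.2 hP]
    · rw [union_comm, ← insert_eq, card_inter_insert _ _ _ hy.1, inter_eq_right.2 hP]
  have hle : ∀ P : Finset X, (P ∩ R).card ≤ r := fun P => hR ▸ card_le_card inter_subset_right
  have hZW : Z ⊆ W := fun v hv => by simp [hW, hv]
  have hRW : W ∩ R = R := inter_eq_right.2 fun v hv => by simp [hW, hv]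
  have hBW : W ∩ B = B := inter_eq_right.2 fun v hv => by grind
  have haW : a ∈ W := by simp [hW]
  have hxW : x ∈ W := by simp [hW]
  have hyW : y ∈ W := by simp [hW]
  have hf : f ≤ 1 := by omega
  have hWc : W.card ≤ t := by
    have h1 := card_insert_le a (insert x (insert y (Z ∪ R)))
    have h2 := card_insert_le x (insert y (Z ∪ R))
    have h3 := card_insert_le y (Z ∪ R)
    have h4 := card_union_le Z R
    rw [hW]; omega
  obtain ⟨c, hc⟩ := exists_col s Z hZ (fun p q => if p = a then (if q ∈ B then 0 else 1)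
      else if p = x then (if q = y then 2 else if q ∈ R then 1 else 0)
      else if p = y then (if q ∈ R then 1 else 0) else 0) (by
    intro p q h
    have h1 := @hd q
    have h2 : a ∈ B := by simp [hB]
    have h3 : q ∈ Z → q ∈ B := fun h => by simp [hB, h]
    clear hW hB hcard hle hZW hRW hBW hWc hZR hF hd
    grind)
  refine ⟨c, conclude c W t (by omega) hWc hX (fun L P => if Z ⊆ P then
    ((if a ∈ P then L - (P ∩ B).card else 0) + (if x ∈ P then (P ∩ R).card else 0) +
      (if y ∈ P then (P ∩ R).card else 0), if x ∈ P then (if y ∈ P then 1 else 0) else 0)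
      else (0, 0)) (fun T => ?_) (by simp) ?_ ?_ ?_⟩
  · have e0 : (T \ B).card = T.card - (T ∩ B).card := by
      have := card_sdiff_add_card_inter T B; omega
    have e1 : T.filter (fun q => (if q ∈ B then (0 : Fin 3) else 1) = 1) = T \ B := by
      ext q; by_cases h1 : q ∈ B <;> simp [h1]
    have e2 : T.filter (fun q => (if q ∈ B then (0 : Fin 3) else 1) = 2) = ∅ := by
      ext q; by_cases h1 : q ∈ B <;> simp [h1]
    have e3 : T.filter (fun q => (if q = y then (2 : Fin 3) else if q ∈ R then 1 else 0) = 1) =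
        T ∩ R := by
      ext q; by_cases h1 : q ∈ R <;> by_cases h2 : q = y <;> simp [h1, h2, hy.2]
    have e4 : T.filter (fun q => (if q = y then (2 : Fin 3) else if q ∈ R then 1 else 0) = 2) =
        T.filter (fun q => q = y) := by
      ext q; by_cases h1 : q ∈ R <;> by_cases h2 : q = y <;> simp [h1, h2, hy.2]
    have e5 : T.filter (fun q => (if q ∈ R then (1 : Fin 3) else 0) = 1) = T ∩ R := by
      ext q; by_cases h1 : q ∈ R <;> by_cases h2 : q = y <;> simp [h1, h2, hy.2]
    have e6 : T.filter (fun q => (if q ∈ R then (1 : Fin 3) else 0) = 2) = ∅ := by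
      ext q; by_cases h1 : q ∈ R <;> by_cases h2 : q = y <;> simp [h1, h2, hy.2]
    rw [hc T 1 (by decide), hc T 2 (by decide), stars a x y hax hay hxy _ _ _ T 1 (by decide),
      stars a x y hax hay hxy _ _ _ T 2 (by decide), e1, e2, e3, e4, e5, e6, e0, filter_eq']
    simp only [subset_inter_iff, hZW, and_true, mem_inter, haW, hxW, hyW, inter_assoc, hRW, hBW]
    split_ifs <;> simp
  · refine ⟨W, Subset.rfl, ?_⟩
    simp only [hZW, haW, hxW, hyW, if_true, hRW, hR]
    omega
  · intro P _ Q _
    have h1 := hcard P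
    have h2 := hcard Q
    have h3 := hle P
    have h4 := hle Q
    clear hc hcard hW hB hle hRW hBW hF hd hZR
    by_cases hP : Z ⊆ P <;> by_cases hQ : Z ⊆ Q <;>
      simp only [hP, hQ, if_true, if_false, Prod.mk.injEq, forall_true_left] at h1 h2 ⊢ <;>
      grind
  · refine ⟨insert a (insert x (insert y Z)), hW ▸ insert_subset_insert _ (insert_subset_insert _
      (insert_subset_insert _ subset_union_left)), insert x (insert y (Z ∪ R)),
      hW ▸ subset_insert _ _, ?_⟩
    have hP : Z ⊆ insert a (insert x (insert y Z)) := fun v hv => by simp [hv]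
    have hQ : Z ⊆ insert x (insert y (Z ∪ R)) := fun v hv => by simp [hv]
    have h1 := hcard _ hP
    have ha' : a ∉ insert x (insert y (Z ∪ R)) := by simp [hax, hay, ha]
    have e1 : insert a (insert x (insert y Z)) ∩ R = ∅ := by
      rw [insert_inter_of_notMem ha.2, insert_inter_of_notMem hx.2, insert_inter_of_notMem hy.2,
        disjoint_iff_inter_eq_empty.1 hZR]
    have e2 : insert x (insert y (Z ∪ R)) ∩ R = R := inter_eq_right.2 fun v hv => by simp [hv]
    simp only [mem_insert_self, mem_insert_of_mem, if_true] at h1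
    simp only [hP, hQ, ha', mem_insert_self, mem_insert_of_mem, if_true, if_false, e1, e2, h1, hR,
      card_empty, ne_eq, Prod.mk.injEq, and_true]
    omega

theorem fails (s t : ℕ) (hs : 2 ≤ s) (hst : s < t) (hX : 2 * (t + 1) ≤ Fintype.card X) :
    ∃ c : {S : Finset X // S.card = s} → Fin 3,
      Function.Surjective c ∧ numSchemes c (t + 1) < numSchemes c t := by
  obtain ⟨Z, -, hZ⟩ := exists_subset_card_eq (s := (univ : Finset X)) (n := s - 2)
    (by rw [card_univ]; omega)
  obtain ⟨R, hZR, hR⟩ := exists_subset_card_eq (s := Zᶜ) (n := (t + 1 - s) / 2)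
    (by rw [card_compl]; omega)
  have hu := card_union_le Z R
  obtain ⟨a, x, y, ha, hx, hy, hax, hay, hxy⟩ := two_lt_card_iff.1
    (show 2 < ((Z ∪ R)ᶜ).card by rw [card_compl]; omega)
  rw [mem_compl] at ha hx hy
  by_cases h : t = s + 1
  · subst h
    simp only [mem_union, not_or] at ha hx hy
    exact small s Z (by omega) a x y hax hay hxy ha.1 hx.1 hy.1 hX
  · have hd : Disjoint Z R := disjoint_right.2 fun v hv => mem_compl.1 (hZR hv)
    rcases Nat.mod_two_eq_zero_or_one (t + 1 - s) with h2 | h2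
    · exact large s t _ 0 Z R ∅ (by omega) hR a x y hax hay hxy ha hx hy hd (Or.inl ⟨rfl, rfl⟩)
        (by omega) (by omega) hX
    · exact large s t _ 1 Z R {y} (by omega) hR a x y hax hay hxy ha hx hy hd (Or.inr ⟨rfl, rfl⟩)
        (by omega) (by omega) hX

end Negative

/-- For `s ≤ t` and `t + 1 ≤ |X| / 2`: the inequality `n(t) ≤ n(t+1)` holds for all colourings of
the `s`-subsets of `X` (any number of colours, all used) exactly when `s ≤ 1` or `s = t`. -/
theorem result : ∀ (X : Type u) [Fintype X] (s t : ℕ), s ≤ t → 2 * (t + 1) ≤ Fintype.card X →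
    ((∀ (m : ℕ) (c : {S : Finset X // S.card = s} → Fin m), Function.Surjective c →
      numSchemes c t ≤ numSchemes c (t + 1)) ↔ (s ≤ 1 ∨ s = t)) := by
  intro X _ s t hst hX
  classical
  refine ⟨fun h => ?_, fun h m c _ => ?_⟩
  · by_contra hn
    obtain ⟨c, hc, hlt⟩ := fails (X := X) s t (by omega) (by omega) hX
    exact absurd (h 3 c hc) (not_le.2 hlt)
  · obtain rfl | rfl | rfl : s = 0 ∨ s = 1 ∨ s = t := by omega
    · exact mono_zero c t (by omega)
    · exact mono_one c t (by omega)
    · exact mono_diag c (by omega)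

end Pool.Agent.Results.MP_598d99_co.Classification
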