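import Mathlib

namespace Pool.Agent.Results.MP_598d99_co.TwoColours

universe u

/-- The colour scheme of `T`: for each colour `i`, the number of `s`-subsets of `T` of colour `i`. -/
noncomputable def scheme {X : Type u} {s m : ℕ} (c : {S : Finset X // S.card = s} → Fin m)
    (T : Finset X) (i : Fin m) : ℕ :=
  {S : {S : Finset X // S.card = s} | S.1 ⊆ T ∧ c S = i}.ncard

/-- The number `n(t)` of distinct colour schemes of `t`-subsets. -/
noncomputable def numSchemes {X : Type u} {s m : ℕ} (c : {S : Finset X // S.card = s} → Fin m)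
    (t : ℕ) : ℕ :=
  {a : Fin m → ℕ | ∃ T : Finset X, T.card = t ∧ scheme c T = a}.ncard

/-- Four points have the weights `1, 1, 2, 2` modulo three, all others the weight `0`. -/
def wt : Fin 10 → Fin 3 := ![1, 1, 2, 2, 0, 0, 0, 0, 0, 0]

/-- A pair has colour `0` if its weights sum to zero, and colour `1` otherwise. -/
def col : Fin 3 → Fin 2 := ![0, 1, 1]

/-- The scheme of a multiset of weights. -/
def sch (M : Multiset (Fin 3)) (i : Fin 2) : ℕ :=
  ((M.powersetCard 2).filter fun S => col S.sum = i).card

/-- The multiset of `t` weights with `p` ones and `q` twos. -/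
def mk (t : ℕ) (p q : Fin 3) : Multiset (Fin 3) :=
  Multiset.replicate (t - p - q) 0 + Multiset.replicate p 1 + Multiset.replicate q 2

theorem scheme_eq {X : Type u} (w : X → Fin 3) (T : Finset X) :
    scheme (fun S : {S : Finset X // S.card = 2} => col (∑ x ∈ S.1, w x)) T =
      sch (T.val.map w) := by
  classical
  funext i
  rw [scheme, ← Set.ncard_image_of_injective _ Subtype.val_injective, sch,
    Multiset.powersetCard_map, ← Finset.map_val_val_powersetCard, Multiset.map_map,
    Multiset.filter_map, Multiset.card_map, ← Finset.filter_val, Finset.card_val,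
    ← Set.ncard_coe_finset]
  congr 1
  ext S
  simp only [Set.mem_image, Set.mem_ofPred_eq, Subtype.exists, exists_and_right, exists_eq_right,
    Finset.coe_filter, Finset.mem_powersetCard, Function.comp, Finset.sum_map_val]
  tauto

theorem ex_set : ∀ t : Fin 7, ∀ p q : Fin 3, 4 ≤ t.1 → ∃ T : Finset (Fin 10),
    T.card = t ∧ T.val.map wt = mk t p q := fun t p q h =>
  ⟨Finset.univ.filter fun i => i.1 < p ∨ (2 ≤ i.1 ∧ i.1 < 2 + q) ∨ (4 ≤ i.1 ∧ i.1 < 4 + (t - p - q)),
    by revert t p q; decide +kernel⟩

theorem num_eq {X : Type u} (e : Fin 10 ↪ X) (t : Fin 7) (ht : 4 ≤ t.1) :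
    numSchemes (fun S : {S : Finset X // S.card = 2} =>
      col (∑ x ∈ S.1, Function.extend e wt 0 x)) t =
    (Finset.univ.image fun pq : Fin 3 × Fin 3 => sch (mk t pq.1 pq.2)).card := by
  classical
  rw [numSchemes, ← Set.ncard_coe_finset]
  congr 1
  ext a
  simp only [Set.mem_ofPred_eq, scheme_eq, Finset.coe_image, Finset.coe_univ, Set.image_univ,
    Set.mem_range, Prod.exists]
  constructor
  · rintro ⟨T, hT, rfl⟩
    have two : ∀ v : Fin 3, v ≠ 0 → (T.val.map (Function.extend e wt 0)).count v < 3 := by
      intro v hv
      rw [Multiset.count_map, ← Finset.filter_val, Finset.card_val]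
      refine (Finset.card_le_card (t := (Finset.univ.filter fun i => wt i = v).map e)
        fun x hx => ?_).trans_lt (by rw [Finset.card_map]; revert v; decide)
      have hx' := (Finset.mem_filter.1 hx).2
      by_cases h : ∃ i, e i = x
      · obtain ⟨i, rfl⟩ := h
        rw [e.injective.extend_apply] at hx'
        simp [hx']
      · rw [Function.extend_apply' _ _ _ h] at hx'
        exact absurd hx' hv
    have hc : (T.val.map (Function.extend e wt 0)).card = t := by simpa using hT
    generalize T.val.map (Function.extend e wt 0) = M at two hc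
    have hs := Multiset.sum_count_eq_card (m := M) (s := Finset.univ) (by simp)
    rw [Fin.sum_univ_three] at hs
    refine ⟨⟨_, two 1 (by decide)⟩, ⟨_, two 2 (by decide)⟩, congrArg sch ?_⟩
    ext v
    fin_cases v <;> simp [mk, Multiset.count_replicate]
    omega
  · rintro ⟨p, q, rfl⟩
    obtain ⟨T, h1, h2⟩ := ex_set t p q ht
    refine ⟨T.map e, by simpa using h1, congrArg sch ?_⟩
    rw [Finset.map_val, Multiset.map_map, ← h2]
    exact Multiset.map_congr rfl fun i _ => e.injective.extend_apply _ _ _

/-- On every set with at least ten points there is a colouring of the pairs with two colours, both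
used, with five colour schemes of 4-subsets and only four colour schemes of 5-subsets. -/
theorem result : ∀ (X : Type u) [Fintype X], 10 ≤ Fintype.card X →
    ∃ c : {S : Finset X // S.card = 2} → Fin 2, Function.Surjective c ∧
      numSchemes c 4 = 5 ∧ numSchemes c 5 = 4 := by
  intro X _ h
  classical
  obtain ⟨e⟩ : Nonempty (Fin 10 ↪ X) := Function.Embedding.nonempty_of_card_le (by simpa using h)
  refine ⟨fun S => col (∑ x ∈ S.1, Function.extend e wt 0 x), fun i => ?_,
    (num_eq e 4 (by decide)).trans (by decide +kernel),
    (num_eq e 5 (by decide)).trans (by decide +kernel)⟩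
  have key : ∀ a b : Fin 10, a ≠ b → col (wt a + wt b) = i →
      ∃ S : {S : Finset X // S.card = 2}, col (∑ x ∈ S.1, Function.extend e wt 0 x) = i :=
    fun a b hab hi => ⟨⟨{e a, e b}, Finset.card_pair (e.injective.ne hab)⟩, by
      rwa [Finset.sum_pair (e.injective.ne hab), e.injective.extend_apply,
        e.injective.extend_apply]⟩
  fin_cases i
  · exact key 4 5 (by decide) rfl
  · exact key 0 1 (by decide) rfl

end Pool.Agent.Results.MP_598d99_co.TwoColours
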